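import Pool.Agent.W282.LF.Stm

/-!
Scaling isomorphism of the curves `y² = x³ + A x + B` and `y² = x³ + u⁴ A x + u⁶ B`.
-/

set_option autoImplicit false

namespace Pool.Agent.W320.LF

open Pool.Agent.W466.EP
open Pool.Agent.W282.LF
open WeierstrassCurve WeierstrassCurve.Affine

section

variable {L : Type} [Field L] {A B u : L}

theorem a1 (A B : L) : (crv A B).a₁ = 0 := rfl
theorem a2 (A B : L) : (crv A B).a₂ = 0 := rfl
theorem a3 (A B : L) : (crv A B).a₃ = 0 := rfl
theorem a4 (A B : L) : (crv A B).a₄ = A := rfl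
theorem a6 (A B : L) : (crv A B).a₆ = B := rfl

theorem negY' (A B x y : L) : (crv A B).negY x y = -y := by
  rw [negY, a1, a3]
  ring

theorem ns (hu : u ≠ 0) {x y : L} (h : (crv A B).Nonsingular x y) :
    (crv (u ^ 4 * A) (u ^ 6 * B)).Nonsingular (u ^ 2 * x) (u ^ 3 * y) := by
  rw [nonsingular_iff, equation_iff, a1, a2, a3, a4, a6] at h ⊢
  obtain ⟨h1, h2⟩ := h
  refine ⟨by linear_combination u ^ 6 * h1, ?_⟩
  rcases h2 with h2 | h2
  · left
    intro h
    apply h2
    have h3 : u ^ 4 ≠ 0 := pow_ne_zero _ hu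
    apply mul_left_cancel₀ h3
    linear_combination h
  · right
    intro h
    apply h2
    have h3 : u ^ 3 ≠ 0 := pow_ne_zero _ hu
    apply mul_left_cancel₀ h3
    linear_combination h

/-- the scaling map -/
def scl (hu : u ≠ 0) : (crv A B).Point → (crv (u ^ 4 * A) (u ^ 6 * B)).Point
  | .zero => .zero
  | .some x y h => .some (u ^ 2 * x) (u ^ 3 * y) (ns hu h)

variable [DecidableEq L]

theorem slope' (hu : u ≠ 0) (x1 x2 y1 y2 : L) :
    (crv (u ^ 4 * A) (u ^ 6 * B)).slope (u ^ 2 * x1) (u ^ 2 * x2) (u ^ 3 * y1) (u ^ 3 * y2) =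
      u * (crv A B).slope x1 x2 y1 y2 := by
  have h2 : u ^ 2 ≠ 0 := pow_ne_zero _ hu
  have h3 : u ^ 3 ≠ 0 := pow_ne_zero _ hu
  by_cases hx : x1 = x2
  · subst hx
    by_cases hy : y1 = -y2
    · subst hy
      rw [slope_of_Y_eq rfl (by rw [negY']; ring), slope_of_Y_eq rfl (by rw [negY']), mul_zero]
    · have hy' : ¬ u ^ 3 * y1 = -(u ^ 3 * y2) := by
        intro h
        apply hy
        apply mul_left_cancel₀ h3
        rw [h]; ring
      rw [slope_of_Y_ne rfl (by rw [negY']; exact hy'), slope_of_Y_ne rfl (by rw [negY']; exact hy)]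
      simp only [a1, a2, a4, negY']
      by_cases hd : y1 - -y1 = 0
      · have : u ^ 3 * y1 - -(u ^ 3 * y1) = 0 := by linear_combination u ^ 3 * hd
        rw [hd, this, div_zero, div_zero, mul_zero]
      · have : u ^ 3 * y1 - -(u ^ 3 * y1) ≠ 0 := by
          intro h
          apply hd
          apply mul_left_cancel₀ h3
          linear_combination h
        rw [div_eq_iff this]
        have e : u ^ 3 * y1 - -(u ^ 3 * y1) = u ^ 3 * (y1 - -y1) := by ring
        rw [e]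
        generalize y1 - -y1 = D at hd
        have key : ∀ n : L, u * (n / D) * (u ^ 3 * D) = u ^ 4 * n := by
          intro n
          field_simp
        rw [key]
        ring
  · have hx' : u ^ 2 * x1 ≠ u ^ 2 * x2 := fun h => hx (mul_left_cancel₀ h2 h)
    rw [slope_of_X_ne hx', slope_of_X_ne hx]
    have h4 : x1 - x2 ≠ 0 := sub_ne_zero.2 hx
    have h5 : u ^ 2 * x1 - u ^ 2 * x2 ≠ 0 := sub_ne_zero.2 hx'
    rw [div_eq_iff h5]
    field_simp

theorem scl_add (hu : u ≠ 0) (P Q : (crv A B).Point) : scl hu (P + Q) = scl hu P + scl hu Q := by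
  rcases P with _ | ⟨x1, y1, hn1⟩
  · change scl hu (0 + Q) = 0 + scl hu Q
    rw [zero_add, zero_add]
  rcases Q with _ | ⟨x2, y2, hn2⟩
  · change scl hu (Point.some x1 y1 hn1 + 0) = scl hu (Point.some x1 y1 hn1) + 0
    rw [add_zero, add_zero]
  have h2 : u ^ 2 ≠ 0 := pow_ne_zero _ hu
  have h3 : u ^ 3 ≠ 0 := pow_ne_zero _ hu
  change scl hu (Point.some x1 y1 hn1 + Point.some x2 y2 hn2) =
    Point.some (u ^ 2 * x1) (u ^ 3 * y1) (ns hu hn1) + Point.some (u ^ 2 * x2) (u ^ 3 * y2) (ns hu hn2)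
  by_cases hxy : x1 = x2 ∧ y1 = (crv A B).negY x2 y2
  · rw [Point.add_of_Y_eq hxy.1 hxy.2, Point.add_of_Y_eq (by rw [hxy.1]) ?_]
    · rfl
    · rw [hxy.2, negY', negY']
      ring
  have hxy' : ¬ (u ^ 2 * x1 = u ^ 2 * x2 ∧
      u ^ 3 * y1 = (crv (u ^ 4 * A) (u ^ 6 * B)).negY (u ^ 2 * x2) (u ^ 3 * y2)) := by
    rintro ⟨e1, e2⟩
    apply hxy
    refine ⟨mul_left_cancel₀ h2 e1, ?_⟩
    rw [negY'] at e2 ⊢
    apply mul_left_cancel₀ h3
    rw [e2]; ring
  rw [Point.add_some hxy, Point.add_some hxy']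
  change Point.some _ _ _ = Point.some _ _ _
  congr 1
  · rw [addX, addX, slope' hu, a1, a2, a1, a2]
    ring
  · rw [addY, addY, negY', negY', negAddY, negAddY, addX, addX, slope' hu, a1, a2, a1, a2]
    ring

end

theorem iso : S_ISO := by
  intro L _ _ _ A B u hu
  refine ⟨AddMonoidHom.mk' (scl hu) (scl_add hu), ?_⟩
  intro x y h
  exact ⟨ns hu h, rfl⟩

end Pool.Agent.W320.LF
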